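import Pool.Agent.Q98.Coset

/-!
# Termination of a coset-counting recurrence procedure in `F_2` (MP_544047_al)

The procedure terminates for every subgroup of finite index, within `[F_2 : H]` steps.
-/

set_option autoImplicit false

namespace Pool.Agent.Results.MP_544047_al.Terminates

/-- The free group on two letters `a`, `b`. -/
abbrev F2 : Type := FreeGroup (Fin 2)

/-- The four letters `a`, `b`, `a⁻¹`, `b⁻¹`. -/
abbrev Letter : Type := Fin 2 × Bool

/-- The set of the cosets `h • C`, with `h` a letter and `C` in `A`. -/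
def nbrs {H : Subgroup F2} (A : Set (F2 ⧸ H)) : Set (F2 ⧸ H) :=
  {D | ∃ (h : Letter) (C : F2 ⧸ H), C ∈ A ∧ (FreeGroup.mk [h] : F2) • C = D}

/-- The sets `C_i`, `i ≥ 0`, of the procedure: `C_0 = {yH}`, `C_1` is the set of the neighbours of
the elements of `C_0` (as `C_{-1}` is empty) and `C_{i+2} = nbrs C_{i+1} \ C_i`. -/
def C (H : Subgroup F2) (y : F2) : ℕ → Set (F2 ⧸ H)
  | 0 => {(y : F2 ⧸ H)}
  | 1 => nbrs {(y : F2 ⧸ H)}
  | (i + 2) => nbrs (C H y (i + 1)) \ C H y i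

open Pool.Agent.Q98.Coset

theorem nbrs_L {H : Subgroup F2} (y : F2 ⧸ H) (n : ℕ) :
    nbrs (L y (n + 1)) \ L y n = L y (n + 2) := by
  ext D
  constructor
  · rintro ⟨⟨h, C, ⟨h1, h2⟩, rfl⟩, h3⟩
    have h4 : tgt (C, h) ∈ T y (n + 4) := T_step y (n := n + 3) (e := (C, h)) h1
    refine ⟨h4, fun h5 => ?_⟩
    apply h3
    refine ⟨h5, fun h6 => h2 ?_⟩
    have h7 := T_step y (n := n) (e := (tgt (C, h), Pool.Agent.Q98.Coset.inv h)) h6
    rw [tgt_inv (C, h)] at h7
    exact h7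
  · rintro ⟨h1, h2⟩
    obtain ⟨e, h3, rfl⟩ := h1
    refine ⟨⟨e.2, e.1, ⟨h3, fun h4 => h2 (T_step y h4)⟩, rfl⟩, fun h5 => h2 h5.1⟩

theorem C_eq (H : Subgroup F2) (y : F2) : ∀ i : ℕ, C H y i = L (y : F2 ⧸ H) i
  | 0 => by simp [C, L, T]
  | 1 => by
    ext D
    simp only [C, L, T, Set.diff_empty, nbrs, Set.mem_ofPred_eq]
    constructor
    · rintro ⟨h, C, h1, h2⟩
      exact ⟨(C, h), h1, h2⟩
    · rintro ⟨e, h1, h2⟩
      exact ⟨e.2, e.1, h1, h2⟩
  | (n + 2) => by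
    simp only [C]
    rw [C_eq H y (n + 1), C_eq H y n, nbrs_L]

/-- For every subgroup `H` of finite index of `F_2` and every `y`, the set `C_i` is empty for all
`i > [F_2 : H]`; in particular the procedure terminates. -/
theorem result (H : Subgroup F2) (hH : H.FiniteIndex) (y : F2) (i : ℕ) (hi : H.index < i) :
    C H y i = ∅ := by
  haveI := hH
  haveI : Finite (F2 ⧸ H) := Subgroup.finite_quotient_of_finiteIndex
  rw [C_eq, ← Set.not_nonempty_iff_eq_empty]
  rintro ⟨x, hx1, hx2⟩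
  have h : (ES (y : F2 ⧸ H) i).Nonempty := by
    obtain ⟨j, rfl⟩ : ∃ j, i = j + 1 := ⟨i - 1, by omega⟩
    obtain ⟨e, he1, rfl⟩ := hx1
    exact ⟨e, he1, hx2⟩
  exact absurd (bound _ i h) (by omega)

end Pool.Agent.Results.MP_544047_al.Terminates
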